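import Pool.Agent.Lib_MP_418a80_oe.OE6

/-!
# Orbit entropy, part 7: smooth letters with few cells
-/

set_option autoImplicit false
set_option linter.unusedVariables false
set_option linter.unusedSectionVars false

open MeasureTheory Topology Filter
open scoped Pointwise

namespace Pool.Agent.AbCoc

universe u v w

theorem OECells.of_le {G F F' J : Type*} [TopologicalSpace G] [MeasurableSpace G]
    [NormedAddCommGroup F] [NormedAddCommGroup F'] {Φ : J → G → F} {Φ' : J → G → F'} {L : ℝ}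
    (hL : 0 < L) (h : ∀ j s t, ‖Φ' j s - Φ' j t‖ ≤ L * ‖Φ j s - Φ j t‖) (hΦ : OECells Φ) :
    OECells Φ' := by
  intro C hC δ hδ
  obtain ⟨n0, hn0⟩ := hΦ C hC (min δ (δ / L)) (by positivity)
  refine ⟨n0, fun n hn => ?_⟩
  obtain ⟨I, hI, κ, h1, h2, h3⟩ := hn0 n hn
  refine ⟨I, hI, κ, h1, h2.trans ?_, fun j s hs t ht hst => (h j s t).trans ?_⟩
  · exact mul_le_mul_of_nonneg_right (min_le_left _ _) (Nat.cast_nonneg _)
  · have h4 := h3 j s hs t ht hst
    have h5 : min δ (δ / L) / n ≤ (δ / L) / n :=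
      div_le_div_of_nonneg_right (min_le_right _ _) (Nat.cast_nonneg _)
    calc L * ‖Φ j s - Φ j t‖ ≤ L * ((δ / L) / n) :=
          mul_le_mul_of_nonneg_left (h4.trans h5) hL.le
      _ = δ / n := by field_simp

section
variable {A : Type u} [CStarAlgebra A] {K : Type v} [NormedAddCommGroup K]
  [InnerProductSpace ℂ K] (T : TrAlg A K)

theorem IsRes.norm_ι_sub {a b r s : A} (ha : IsSelfAdjoint a) (hb : IsSelfAdjoint b)
    (h1 : IsRes a r) (h2 : IsRes b s) : ‖T.ι r - T.ι s‖ ≤ ‖T.ι a - T.ι b‖ := by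
  rw [← map_sub, h1.sub h2]
  have h3 : ‖T.ι (r * (b - a) * s)‖ ≤ ‖T.ι (r * (b - a))‖ * ‖s‖ := T.mul_le' _ _
  have h4 : ‖T.ι (r * (b - a))‖ ≤ ‖r‖ * ‖T.ι (b - a)‖ := T.mul_le _ _
  have h5 := h1.norm_le ha
  have h6 := h2.norm_le hb
  have h7 : ‖T.ι (b - a)‖ = ‖T.ι a - T.ι b‖ := by rw [map_sub, norm_sub_rev]
  rw [h7] at h4
  have h8 : ‖r‖ * ‖T.ι a - T.ι b‖ ≤ 1 * ‖T.ι a - T.ι b‖ :=
    mul_le_mul_of_nonneg_right h5 (norm_nonneg _)
  have h9 : ‖T.ι (r * (b - a))‖ * ‖s‖ ≤ ‖T.ι (r * (b - a))‖ * 1 :=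
    mul_le_mul_of_nonneg_left h6 (norm_nonneg _)
  linarith

theorem IsRes.norm_sub {a b r s : A} (ha : IsSelfAdjoint a) (hb : IsSelfAdjoint b)
    (h1 : IsRes a r) (h2 : IsRes b s) : ‖r - s‖ ≤ ‖a - b‖ := by
  rw [h1.sub h2]
  have h3 : ‖r * (b - a) * s‖ ≤ ‖r * (b - a)‖ * ‖s‖ := norm_mul_le _ _
  have h4 : ‖r * (b - a)‖ ≤ ‖r‖ * ‖b - a‖ := norm_mul_le _ _
  have h5 := h1.norm_le ha
  have h6 := h2.norm_le hb
  rw [norm_sub_rev b a] at h4
  have h8 : ‖r‖ * ‖a - b‖ ≤ 1 * ‖a - b‖ := mul_le_mul_of_nonneg_right h5 (norm_nonneg _)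
  have h9 : ‖r * (b - a)‖ * ‖s‖ ≤ ‖r * (b - a)‖ * 1 :=
    mul_le_mul_of_nonneg_left h6 (norm_nonneg _)
  linarith

/-- near-intertwiners of Cayley transforms are near-intertwiners of the operators -/
theorem IsRes.inter_le {a b r s : A} (h1 : IsRes a r) (h2 : IsRes b s) (x : A) :
    ‖T.ι (a * x - x * b)‖ ≤ (‖a‖ + 1) * (‖b‖ + 1) * ‖T.ι (cay r * x - x * cay s)‖ := by
  rw [h1.inter h2 x, map_smul, norm_smul]
  have hI : ‖(2 * Complex.I)⁻¹‖ ≤ 1 := by
    rw [norm_inv, norm_mul, Complex.norm_I, mul_one, Complex.norm_ofNat]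
    norm_num
  have hone : ‖(1 : A)‖ ≤ 1 := by
    rcases subsingleton_or_nontrivial A with h | h
    · rw [Subsingleton.elim (1 : A) 0, norm_zero]; norm_num
    · rw [CStarRing.norm_one]
  have hn : ∀ c : A, ‖c + Complex.I • (1 : A)‖ ≤ ‖c‖ + 1 := by
    intro c
    refine (norm_add_le _ _).trans (add_le_add le_rfl ?_)
    rw [norm_smul, Complex.norm_I, one_mul]
    exact hone
  set y := cay r * x - x * cay s
  have h3 := T.mul_le' ((a + Complex.I • (1 : A)) * y) (b + Complex.I • (1 : A))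
  have h4 := T.mul_le (a + Complex.I • (1 : A)) y
  calc ‖(2 * Complex.I)⁻¹‖ * ‖T.ι ((a + Complex.I • (1 : A)) * y * (b + Complex.I • (1 : A)))‖
      ≤ 1 * ‖T.ι ((a + Complex.I • (1 : A)) * y * (b + Complex.I • (1 : A)))‖ :=
        mul_le_mul_of_nonneg_right hI (norm_nonneg _)
    _ ≤ ‖T.ι ((a + Complex.I • (1 : A)) * y)‖ * ‖b + Complex.I • (1 : A)‖ := by
        rw [one_mul]; exact h3
    _ ≤ ((‖a‖ + 1) * ‖T.ι y‖) * (‖b‖ + 1) := by
        refine mul_le_mul (h4.trans ?_) (hn b) (norm_nonneg _) (by positivity)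
        exact mul_le_mul_of_nonneg_right (hn a) (norm_nonneg _)
    _ = (‖a‖ + 1) * (‖b‖ + 1) * ‖T.ι y‖ := by ring

end

section letters
variable {A : Type u} [CStarAlgebra A] [PartialOrder A] [StarOrderedRing A]
  {K : Type v} [NormedAddCommGroup K] [InnerProductSpace ℂ K] [CompleteSpace K]
  {T : TrAlg A K}
  {G : Type w} [Group G] [TopologicalSpace G] (S : TrAct G T)
  [IsTopologicalGroup G] [SecondCountableTopology G] [MeasurableSpace G] [BorelSpace G]
  [LocallyCompactSpace G] [T2Space G] (μ : Measure G) [μ.IsHaarMeasure]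
include μ

/-- smooth letters: for every positive `z` there are a positive `h` close to `z` in the `2`-norm
and a unitary `u` (the Cayley transform of `h`) with norm continuous orbit and few cells, such that
near-intertwiners of `u` are near-intertwiners of `h` -/
theorem TrAct.exists_letter {z : A} (hz : 0 ≤ z) {ε : ℝ} (hε : 0 < ε) :
    ∃ h u : A, 0 ≤ h ∧ ‖h‖ ≤ ‖z‖ ∧ ‖T.ι h - T.ι z‖ ≤ ε ∧ star u * u = 1 ∧ u * star u = 1 ∧
      (Continuous fun g => S.α g u) ∧ (OECells fun (_ : Unit) g => T.ι (S.α g u)) ∧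
      ∀ (f g : A →⋆ₐ[ℂ] A) (x : A), ‖T.ι (f h * x - x * g h)‖
        ≤ (‖h‖ + 1) ^ 2 * ‖T.ι (f u * x - x * g u)‖ := by
  obtain ⟨h, h0, h1, h2, h3, h4⟩ := S.exists_smooth μ hz hε
  have hsa : IsSelfAdjoint h := IsSelfAdjoint.of_nonneg h0
  obtain ⟨r, hr⟩ := exists_isRes hsa
  have hsa' : ∀ g, IsSelfAdjoint (S.α g h) := fun g => hsa.map (S.α g)
  have hd : ∀ s t, ‖T.ι (S.α s (cay r)) - T.ι (S.α t (cay r))‖
      ≤ 2 * ‖T.ι (S.α s h) - T.ι (S.α t h)‖ := by
    intro s t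
    have h5 : T.ι (S.α s (cay r)) - T.ι (S.α t (cay r))
        = -((2 * Complex.I) • (T.ι (S.α s r) - T.ι (S.α t r))) := by
      rw [cay_map, cay_map]
      unfold cay
      simp only [map_sub, map_one, map_smul, smul_sub]
      abel
    rw [h5, norm_neg, norm_smul, norm_mul, Complex.norm_I, mul_one, Complex.norm_ofNat]
    exact mul_le_mul_of_nonneg_left
      (IsRes.norm_ι_sub T (hsa' s) (hsa' t) (hr.map (S.α s)) (hr.map (S.α t))) (by norm_num)
  refine ⟨h, cay r, h0, h1, h2, hr.star_cay_mul hsa, hr.cay_mul_star hsa, ?_, ?_,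
    fun f g x => ?_⟩
  · have h5 : Continuous fun g => S.α g r := by
      rw [continuous_iff_continuousAt]
      intro t
      rw [ContinuousAt, tendsto_iff_norm_sub_tendsto_zero]
      have h6 : Tendsto (fun s => ‖S.α s h - S.α t h‖) (𝓝 t) (𝓝 0) := by
        have := tendsto_iff_norm_sub_tendsto_zero.1 (h3.tendsto t)
        exact this
      exact squeeze_zero (fun s => norm_nonneg _)
        (fun s => IsRes.norm_sub (hsa' s) (hsa' t) (hr.map (S.α s)) (hr.map (S.α t))) h6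
    have h6 : (fun g => S.α g (cay r)) = fun g => 1 - (2 * Complex.I) • S.α g r := by
      funext g
      rw [cay_map]
      rfl
    rw [h6]
    exact continuous_const.sub (h5.const_smul _)
  · exact h4.of_le (by norm_num : (0 : ℝ) < 2) fun _ s t => hd s t
  · have h5 := IsRes.inter_le T (hr.map f) (hr.map g) x
    rw [← cay_map, ← cay_map] at h5
    refine h5.trans (mul_le_mul_of_nonneg_right ?_ (norm_nonneg _))
    rw [sq]
    exact mul_le_mul (add_le_add (NonUnitalStarAlgHom.norm_apply_le f h) le_rfl)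
      (add_le_add (NonUnitalStarAlgHom.norm_apply_le g h) le_rfl) (by positivity) (by positivity)

/-- finitely many letters and one cell decomposition for all of them -/
theorem TrAct.exists_letters {J : Type} [Fintype J] {z : J → A} (hz : ∀ j, 0 ≤ z j) {ε : ℝ}
    (hε : 0 < ε) :
    ∃ h u : J → A, (∀ j, 0 ≤ h j) ∧ (∀ j, ‖h j‖ ≤ ‖z j‖) ∧ (∀ j, ‖T.ι (h j) - T.ι (z j)‖ ≤ ε) ∧
      (∀ j, star (u j) * u j = 1) ∧ (∀ j, u j * star (u j) = 1) ∧
      (∀ j, Continuous fun g => S.α g (u j)) ∧ (OECells fun (j : J) g => T.ι (S.α g (u j))) ∧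
      ∀ (j : J) (f g : A →⋆ₐ[ℂ] A) (x : A), ‖T.ι (f (h j) * x - x * g (h j))‖
        ≤ (‖h j‖ + 1) ^ 2 * ‖T.ι (f (u j) * x - x * g (u j))‖ := by
  choose h u a1 a2 a3 a4 a5 a6 a7 a8 using fun j => S.exists_letter μ (hz j) hε
  let _ : InnerProductSpace ℝ K := InnerProductSpace.rclikeToReal ℂ K
  exact ⟨h, u, a1, a2, a3, a4, a5, a6, OECells.of_forall a7, a8⟩

end letters

end Pool.Agent.AbCoc
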