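import Pool.Agent.Lib_MP_418a80_oe.OE4
import Pool.Agent.Lib_MP_418a80_hyp.OrbInt

/-!
# Orbit entropy, part 5: smooth elements of `M` whose orbits have few cells
-/

set_option autoImplicit false
set_option linter.unusedVariables false
set_option linter.unusedSectionVars false

open MeasureTheory Topology Filter
open scoped Pointwise

namespace Pool.Agent.AbCoc

universe u v w

section bump
variable {G : Type w} [Group G] [TopologicalSpace G] [IsTopologicalGroup G]
  [SecondCountableTopology G] [LocallyCompactSpace G] [T2Space G]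
  [MeasurableSpace G] [BorelSpace G] (μ : Measure G) [μ.IsHaarMeasure]

/-- normalised bump functions with small support -/
theorem oe_bump {V : Set G} (hV : V ∈ 𝓝 (1 : G)) : ∃ b : G → ℝ, Continuous b ∧
    HasCompactSupport b ∧ (∀ t, 0 ≤ b t) ∧ ∫ t, b t ∂μ = 1 ∧ ∀ t, t ∉ V → b t = 0 := by
  obtain ⟨f, hf1, hf0, hfc, hf⟩ := exists_continuous_one_zero_of_isCompact
    (isCompact_singleton (x := (1 : G))) (isOpen_interior (s := V)).isClosed_compl
    (by
      rw [Set.disjoint_singleton_left, Set.mem_compl_iff, not_not]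
      exact mem_interior_iff_mem_nhds.2 hV)
  have hf2 : ∀ t, 0 ≤ f t := fun t => (hf t).1
  have hf3 : f 1 ≠ 0 := by
    rw [hf1 (Set.mem_singleton _)]
    simp
  have hint : Integrable (fun t => f t) μ := f.continuous.integrable_of_hasCompactSupport hfc
  have hpos : 0 < ∫ t, f t ∂μ :=
    f.continuous.integral_pos_of_hasCompactSupport_nonneg_nonzero hfc hf2 hf3
  refine ⟨fun t => (∫ t, f t ∂μ)⁻¹ * f t, continuous_const.mul f.continuous, hfc.mul_left,
    fun t => mul_nonneg (inv_nonneg.2 hpos.le) (hf2 t), ?_, fun t ht => ?_⟩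
  · rw [integral_const_mul, inv_mul_cancel₀ hpos.ne']
  · have h1 : f t = 0 := hf0 (by
      rw [Set.mem_compl_iff]
      exact fun h => ht (interior_subset h))
    simp only
    rw [h1, mul_zero]

/-- translation is continuous in `L¹` for continuous functions with compact support -/
theorem oe_translate {b : G → ℝ} (hb : Continuous b) (hbc : HasCompactSupport b) (t : G) :
    Tendsto (fun s => ∫ r, |b (s⁻¹ * r) - b (t⁻¹ * r)| ∂μ) (𝓝 t) (𝓝 0) := by
  obtain ⟨q, hq⟩ := hbc.exists_bound_of_continuous hb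
  obtain ⟨N, hN, hNt⟩ := exists_compact_mem_nhds t
  have hK : IsCompact (N * tsupport b) := hN.mul hbc
  have hc : ContinuousAt (fun s => ∫ r, |b (s⁻¹ * r) - b (t⁻¹ * r)| ∂μ) t := by
    refine continuousAt_of_dominated (bound := (N * tsupport b).indicator fun _ => 2 * q)
      (Eventually.of_forall fun s => ?_) ?_ ?_ ?_
    · exact ((hb.comp (continuous_const.mul continuous_id)).sub
        (hb.comp (continuous_const.mul continuous_id))).abs.aestronglyMeasurable
    · filter_upwards [hNt] with s hs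
      refine Eventually.of_forall fun r => ?_
      rw [Real.norm_eq_abs, abs_abs]
      by_cases hr : r ∈ N * tsupport b
      · rw [Set.indicator_of_mem hr]
        have h1 := hq (s⁻¹ * r)
        have h2 := hq (t⁻¹ * r)
        rw [Real.norm_eq_abs] at h1 h2
        exact (abs_sub _ _).trans (by linarith)
      · rw [Set.indicator_of_notMem hr]
        have h0 : ∀ x ∈ N, b (x⁻¹ * r) = 0 := by
          intro x hx
          refine image_eq_zero_of_notMem_tsupport fun h => hr ⟨x, hx, x⁻¹ * r, h, ?_⟩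
          simp only
          rw [mul_inv_cancel_left]
        rw [h0 s hs, h0 t (mem_of_mem_nhds hNt), sub_zero, abs_zero]
    · exact (integrable_indicator_iff hK.measurableSet).2
        (integrableOn_const hK.measure_lt_top.ne)
    · refine Eventually.of_forall fun r => ?_
      exact (((hb.comp (continuous_inv.mul continuous_const)).sub continuous_const).abs).continuousAt
  have h1 := hc.tendsto
  simp only [sub_self, abs_zero, integral_zero] at h1
  exact h1

end bump

section smooth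
variable {A : Type u} [CStarAlgebra A] [PartialOrder A] [StarOrderedRing A]
  {K : Type v} [NormedAddCommGroup K] [InnerProductSpace ℂ K] [CompleteSpace K]
  {T : TrAlg A K}
  {G : Type w} [Group G] [TopologicalSpace G] (S : TrAct G T)
  [IsTopologicalGroup G] [SecondCountableTopology G] [MeasurableSpace G] [BorelSpace G]
  (μ : Measure G)

theorem TrAct.oe_shift [μ.IsMulLeftInvariant] {F : G → ℝ} (hF : Integrable F μ) {z h : A}
    (hh : T.ι h = ∫ t, F t • T.ι (S.α t z) ∂μ) (s : G) :
    T.ι (S.α s h) = ∫ t, F (s⁻¹ * t) • T.ι (S.α t z) ∂μ := by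
  rw [← S.U_ι, hh, ← ContinuousLinearMap.integral_comp_comm _ (S.hyp_orbit_integrable μ hF z)]
  have h2 : ∀ t, S.U.U s (F t • T.ι (S.α t z)) = F t • T.ι (S.α (s * t) z) := by
    intro t
    rw [← Complex.coe_smul, map_smul, S.U_ι, ← S.mul, Complex.coe_smul]
  rw [integral_congr_ae (Filter.Eventually.of_forall h2)]
  have h3 := integral_mul_left_eq_self (μ := μ) (fun t => F (s⁻¹ * t) • T.ι (S.α t z)) s
  rw [← h3]
  refine integral_congr_ae (Filter.Eventually.of_forall fun t => ?_)
  change F t • T.ι (S.α (s * t) z) = F (s⁻¹ * (s * t)) • T.ι (S.α (s * t) z)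
  rw [inv_mul_cancel_left]

theorem TrAct.oe_avg_nonneg {F : G → ℝ} (hF : Integrable F μ) (hF0 : ∀ t, 0 ≤ F t) {z : A}
    (hz : 0 ≤ z) : ∃ h : A, ‖h‖ ≤ (∫ t, F t ∂μ) * ‖z‖ ∧
      T.ι h = ∫ t, F t • T.ι (S.α t z) ∂μ := by
  rcases (integral_nonneg (μ := μ) (f := F) fun t => hF0 t).eq_or_lt with h0 | h0
  · refine ⟨0, by rw [norm_zero, ← h0, zero_mul], ?_⟩
    have h1 : F =ᵐ[μ] 0 := (integral_eq_zero_iff_of_nonneg hF0 hF).1 h0.symm
    rw [map_zero]
    refine (integral_eq_zero_of_ae ?_).symm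
    filter_upwards [h1] with t ht
    rw [ht, Pi.zero_apply, zero_smul, Pi.zero_apply]
  · set c := ∫ t, F t ∂μ with hc
    obtain ⟨h, _, h1, h2⟩ := S.exists_orbit_avg μ (F := fun t => c⁻¹ * F t) (hF.const_mul _)
      (fun t => mul_nonneg (inv_nonneg.2 h0.le) (hF0 t))
      (by rw [integral_const_mul, ← hc, inv_mul_cancel₀ h0.ne']) hz
    refine ⟨(c : ℂ) • h, ?_, ?_⟩
    · rw [norm_smul, Complex.norm_real, Real.norm_of_nonneg h0.le]
      exact mul_le_mul_of_nonneg_left h1 h0.le
    · rw [map_smul, h2, Complex.coe_smul, ← integral_smul]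
      refine integral_congr_ae (Eventually.of_forall fun t => ?_)
      simp only
      rw [smul_smul, mul_inv_cancel_left₀ h0.ne']

theorem TrAct.oe_avg {F : G → ℝ} (hF : Integrable F μ) {z : A}
    (hz : 0 ≤ z) : ∃ h : A, ‖h‖ ≤ (∫ t, |F t| ∂μ) * ‖z‖ ∧
      T.ι h = ∫ t, F t • T.ι (S.α t z) ∂μ := by
  obtain ⟨h1, a1, b1⟩ := S.oe_avg_nonneg μ hF.pos_part (fun t => le_max_right _ _) hz
  obtain ⟨h2, a2, b2⟩ := S.oe_avg_nonneg μ hF.neg_part (fun t => le_max_right _ _) hz
  refine ⟨h1 - h2, ?_, ?_⟩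
  · have e1 : ∫ t, |F t| ∂μ = ∫ t, max (F t) 0 ∂μ + ∫ t, max (-F t) 0 ∂μ := by
      rw [← integral_add hF.pos_part hF.neg_part]
      refine integral_congr_ae (Eventually.of_forall fun t => ?_)
      simp only
      rcases le_total 0 (F t) with h | h
      · rw [abs_of_nonneg h, max_eq_left h, max_eq_right (by linarith), add_zero]
      · rw [abs_of_nonpos h, max_eq_right h, max_eq_left (by linarith), zero_add]
    rw [e1, add_mul]
    exact (norm_sub_le _ _).trans (add_le_add a1 a2)
  · rw [map_sub, b1, b2, ← integral_sub (S.hyp_orbit_integrable μ hF.pos_part z)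
      (S.hyp_orbit_integrable μ hF.neg_part z)]
    refine integral_congr_ae (Eventually.of_forall fun t => ?_)
    simp only
    rw [← sub_smul]
    congr 1
    rcases le_total 0 (F t) with h | h
    · rw [max_eq_left h, max_eq_right (by linarith), sub_zero]
    · rw [max_eq_right h, max_eq_left (by linarith), zero_sub, neg_neg]

/-- orbit averages are norm continuous -/
theorem TrAct.oe_norm_cont [LocallyCompactSpace G] [T2Space G] [μ.IsHaarMeasure] {b : G → ℝ}
    (hb : Continuous b) (hbc : HasCompactSupport b) {z h : A} (hz : 0 ≤ z)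
    (hh : T.ι h = ∫ t, b t • T.ι (S.α t z) ∂μ) : Continuous fun g => S.α g h := by
  have hbi : Integrable b μ := hb.integrable_of_hasCompactSupport hbc
  rw [continuous_iff_continuousAt]
  intro t
  rw [ContinuousAt, tendsto_iff_norm_sub_tendsto_zero]
  have h1 : ∀ s, ‖S.α s h - S.α t h‖ ≤ (∫ r, |b (s⁻¹ * r) - b (t⁻¹ * r)| ∂μ) * ‖z‖ := by
    intro s
    obtain ⟨y, hy1, hy2⟩ := S.oe_avg μ (F := fun r => b (s⁻¹ * r) - b (t⁻¹ * r))
      ((hbi.comp_mul_left s⁻¹).sub (hbi.comp_mul_left t⁻¹)) hz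
    have h2 : S.α s h - S.α t h = y := by
      apply T.inj
      rw [map_sub, S.oe_shift μ hbi hh, S.oe_shift μ hbi hh, hy2,
        ← integral_sub (S.hyp_orbit_integrable μ (hbi.comp_mul_left s⁻¹) z)
          (S.hyp_orbit_integrable μ (hbi.comp_mul_left t⁻¹) z)]
      refine integral_congr_ae (Eventually.of_forall fun r => ?_)
      simp only
      rw [sub_smul]
    rw [h2]
    exact hy1
  refine squeeze_zero (fun s => norm_nonneg _) h1 ?_
  have h2 := (oe_translate μ hb hbc t).mul_const ‖z‖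
  rwa [zero_mul] at h2

theorem TrAct.oe_avg_sub {b : G → ℝ} (hbi : Integrable b μ) (hb0 : ∀ t, 0 ≤ b t)
    (hb1 : ∫ t, b t ∂μ = 1) {z h z' h' : A}
    (hh : T.ι h = ∫ t, b t • T.ι (S.α t z) ∂μ) (hh' : T.ι h' = ∫ t, b t • T.ι (S.α t z') ∂μ) :
    ‖T.ι h - T.ι h'‖ ≤ ‖T.ι z - T.ι z'‖ := by
  rw [hh, hh', ← integral_sub (S.hyp_orbit_integrable μ hbi z) (S.hyp_orbit_integrable μ hbi z')]
  refine (norm_integral_le_of_norm_le (hbi.mul_const ‖T.ι z - T.ι z'‖)
    (Eventually.of_forall fun t => ?_)).trans (le_of_eq ?_)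
  · rw [← smul_sub, ← map_sub, ← map_sub, norm_smul, Real.norm_of_nonneg (hb0 t), S.norm_map,
      map_sub]
  · rw [integral_mul_const, hb1, one_mul]

/-- every positive element is close in the `2`-norm to a positive element whose orbit is norm
continuous and has few cells -/
theorem TrAct.exists_smooth [LocallyCompactSpace G] [T2Space G] [μ.IsHaarMeasure] {z : A}
    (hz : 0 ≤ z) {ε : ℝ} (hε : 0 < ε) :
    ∃ h : A, 0 ≤ h ∧ ‖h‖ ≤ ‖z‖ ∧ ‖T.ι h - T.ι z‖ ≤ ε ∧ (Continuous fun g => S.α g h) ∧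
      OECells fun (_ : Unit) g => T.ι (S.α g h) := by
  have hV : {t : G | ‖T.ι (S.α t z) - T.ι z‖ < ε / 3} ∈ 𝓝 (1 : G) := by
    have h1 : Continuous fun t : G => ‖T.ι (S.α t z) - T.ι z‖ :=
      ((S.cont z).sub continuous_const).norm
    have h2 : ‖T.ι (S.α 1 z) - T.ι z‖ < ε / 3 := by
      rw [S.one, sub_self, norm_zero]
      positivity
    exact h1.tendsto 1 (Iio_mem_nhds h2)
  obtain ⟨b, hb, hbc, hb0, hb1, hbV⟩ := oe_bump μ hV
  have hbi : Integrable b μ := hb.integrable_of_hasCompactSupport hbc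
  obtain ⟨z1, z10, z1n, z1h⟩ := S.exists_orbit_avg μ hbi hb0 hb1 hz
  obtain ⟨z2, z20, z2n, z2h⟩ := S.exists_orbit_avg μ hbi hb0 hb1 z10
  obtain ⟨z3, z30, z3n, z3h⟩ := S.exists_orbit_avg μ hbi hb0 hb1 z20
  refine ⟨z3, z30, z3n.trans (z2n.trans z1n), ?_, S.oe_norm_cont μ hb hbc z20 z3h, ?_⟩
  · have h1 : ‖T.ι z1 - T.ι z‖ ≤ ε / 3 := by
      have h2 : T.ι z = ∫ t, b t • T.ι z ∂μ := by
        rw [integral_smul_const, hb1, one_smul]
      rw [z1h]
      rw [show ‖(∫ t, b t • T.ι (S.α t z) ∂μ) - T.ι z‖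
        = ‖(∫ t, b t • T.ι (S.α t z) ∂μ) - ∫ t, b t • T.ι z ∂μ‖ by rw [← h2]]
      rw [← integral_sub (S.hyp_orbit_integrable μ hbi z) (hbi.smul_const _)]
      refine (norm_integral_le_of_norm_le (hbi.mul_const (ε / 3))
        (Eventually.of_forall fun t => ?_)).trans (le_of_eq ?_)
      · rw [← smul_sub, norm_smul, Real.norm_of_nonneg (hb0 t)]
        by_cases ht : t ∈ {t : G | ‖T.ι (S.α t z) - T.ι z‖ < ε / 3}
        · exact mul_le_mul_of_nonneg_left (le_of_lt ht) (hb0 t)
        · rw [hbV t ht, zero_mul, zero_mul]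
      · rw [integral_mul_const, hb1, one_mul]
    have h2 := S.oe_avg_sub μ hbi hb0 hb1 z2h z1h
    have h3 := S.oe_avg_sub μ hbi hb0 hb1 z3h z2h
    have h4 : T.ι z3 - T.ι z = (T.ι z3 - T.ι z2) + (T.ι z2 - T.ι z1) + (T.ι z1 - T.ι z) := by abel
    rw [h4]
    refine (norm_add_le _ _).trans ?_
    have h5 := norm_add_le (T.ι z3 - T.ι z2) (T.ι z2 - T.ι z1)
    linarith
  · let _ : InnerProductSpace ℝ K := InnerProductSpace.rclikeToReal ℂ K
    have e0 : OEApprox 0 fun g => T.ι (S.α g z) := oeApprox_zero (S.cont z)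
    have e1 : OEApprox 1 fun g => T.ι (S.α g z1) := by
      have := oeApprox_succ (μ := μ) hb hbc (S.cont z) e0
      convert this using 1
      funext s
      exact S.oe_shift μ hbi z1h s
    have e2 : OEApprox 2 fun g => T.ι (S.α g z2) := by
      have := oeApprox_succ (μ := μ) hb hbc (S.cont z1) e1
      convert this using 1
      funext s
      exact S.oe_shift μ hbi z2h s
    have e3 : OEApprox 3 fun g => T.ι (S.α g z3) := by
      have := oeApprox_succ (μ := μ) hb hbc (S.cont z2) e2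
      convert this using 1
      funext s
      exact S.oe_shift μ hbi z3h s
    exact e3.cells (S.cont z3)

end smooth

end Pool.Agent.AbCoc
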