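import Mathlib

/-!
# Orbit entropy, part 1: Hilbert-Schmidt bounds and finite-dimensional approximation
-/

set_option autoImplicit false
set_option linter.unusedVariables false
set_option linter.unusedSectionVars false

open MeasureTheory Topology Filter

namespace Pool.Agent.AbCoc

section greedy
variable {E F : Type*} [NormedAddCommGroup E] [InnerProductSpace ℝ E]
  [NormedAddCommGroup F] [InnerProductSpace ℝ F]

theorem oe_orthonormal_cons {n : ℕ} (e : Fin n → E) (he : Orthonormal ℝ e) (x : E)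
    (hx : x ∈ (Submodule.span ℝ (Set.range e))ᗮ) (hx1 : ‖x‖ = 1) :
    Orthonormal ℝ (Fin.cons x e : Fin (n + 1) → E) := by
  have h0 : ∀ i, inner ℝ (e i) x = 0 := fun i =>
    (Submodule.mem_orthogonal _ _).1 hx _ (Submodule.subset_span (Set.mem_range_self i))
  refine ⟨fun i => ?_, fun i j hij => ?_⟩
  · refine Fin.cases ?_ (fun j => ?_) i
    · rw [Fin.cons_zero, hx1]
    · rw [Fin.cons_succ, he.1 j]
  · revert hij
    refine Fin.cases ?_ (fun i' => ?_) i
    · refine Fin.cases ?_ (fun j' => ?_) j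
      · intro h; exact absurd rfl h
      · intro _
        rw [Fin.cons_zero, Fin.cons_succ, real_inner_comm]
        exact h0 j'
    · refine Fin.cases ?_ (fun j' => ?_) j
      · intro _
        rw [Fin.cons_zero, Fin.cons_succ]
        exact h0 i'
      · intro h
        rw [Fin.cons_succ, Fin.cons_succ]
        exact he.2 fun h1 => h (by rw [h1])

/-- an operator with finite Hilbert-Schmidt norm `≤ B` is `≤ B / √(d+1)` off a subspace of
dimension `≤ d` -/
theorem oe_greedy (T : E →L[ℝ] F) (B : ℝ) (hB : 0 ≤ B)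
    (hT : ∀ (n : ℕ) (e : Fin n → E), Orthonormal ℝ e → ∑ i, ‖T (e i)‖ ^ 2 ≤ B ^ 2) (d : ℕ) :
    ∃ V : Submodule ℝ E, FiniteDimensional ℝ V ∧ Module.finrank ℝ V ≤ d ∧
      ∀ x ∈ Vᗮ, ‖T x‖ ≤ B / Real.sqrt (d + 1) * ‖x‖ := by
  by_contra hcon
  push Not at hcon
  have hd : (0 : ℝ) < (d : ℝ) + 1 := by positivity
  have key : ∀ k : ℕ, k ≤ d + 1 → ∃ e : Fin k → E, Orthonormal ℝ e ∧
      ∀ i, B / Real.sqrt (d + 1) < ‖T (e i)‖ := by
    intro k
    induction k with
    | zero =>
      intro _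
      exact ⟨Fin.elim0, ⟨fun i => i.elim0, fun i => i.elim0⟩, fun i => i.elim0⟩
    | succ k ih =>
      intro hk
      obtain ⟨e, he, h1⟩ := ih (by omega)
      obtain ⟨x, hx, h2⟩ := hcon (Submodule.span ℝ (Set.range e))
        (FiniteDimensional.span_of_finite ℝ (Set.finite_range e))
        ((finrank_range_le_card e).trans (by rw [Fintype.card_fin]; omega))
      have hx0 : 0 < ‖x‖ := by
        rcases (norm_nonneg x).eq_or_lt with h | h
        · exfalso
          rw [← h, mul_zero, norm_eq_zero.1 h.symm, map_zero, norm_zero] at h2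
          exact lt_irrefl _ h2
        · exact h
      refine ⟨Fin.cons (‖x‖⁻¹ • x) e, oe_orthonormal_cons e he _ ?_ ?_, ?_⟩
      · exact Submodule.smul_mem _ _ hx
      · rw [norm_smul, norm_inv, norm_norm, inv_mul_cancel₀ hx0.ne']
      · intro i
        refine Fin.cases ?_ (fun j => ?_) i
        · rw [Fin.cons_zero, map_smul, norm_smul, norm_inv, norm_norm]
          rw [inv_mul_eq_div, lt_div_iff₀ hx0]
          exact h2
        · rw [Fin.cons_succ]
          exact h1 j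
  obtain ⟨e, he, h1⟩ := key (d + 1) le_rfl
  have h2 := hT (d + 1) e he
  have h3 : ∑ i : Fin (d + 1), (B / Real.sqrt (d + 1)) ^ 2 < ∑ i, ‖T (e i)‖ ^ 2 := by
    refine Finset.sum_lt_sum_of_nonempty ⟨0, Finset.mem_univ _⟩ fun i _ => ?_
    exact pow_lt_pow_left₀ (h1 i) (by positivity) two_ne_zero
  rw [Finset.sum_const, Finset.card_univ, Fintype.card_fin, nsmul_eq_mul, div_pow,
    Real.sq_sqrt hd.le] at h3
  have h4 : (((d + 1 : ℕ) : ℝ)) * (B ^ 2 / ((d : ℝ) + 1)) = B ^ 2 := by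
    push_cast
    field_simp
  linarith

end greedy

section HS
variable {X : Type*} [MeasurableSpace X] {ν : Measure X} [IsFiniteMeasure ν]
  {F : Type*} [NormedAddCommGroup F] [InnerProductSpace ℝ F]

theorem oe_integrable_smul {Φ : X → F} (hΦ : AEStronglyMeasurable Φ ν) {c : ℝ}
    (hc : ∀ᵐ t ∂ν, ‖Φ t‖ ≤ c) (f : Lp ℝ 2 ν) : Integrable (fun t => f t • Φ t) ν := by
  have h1 : Integrable f ν := (Lp.memLp f).integrable (by norm_num)
  exact h1.smul_bdd c hΦ hc

theorem oe_hs {Φ : X → F} (hΦ : AEStronglyMeasurable Φ ν) {c : ℝ} (hc0 : 0 ≤ c)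
    (hc : ∀ᵐ t ∂ν, ‖Φ t‖ ≤ c) [CompleteSpace F] {n : ℕ} (e : Fin n → Lp ℝ 2 ν)
    (he : Orthonormal ℝ e) :
    ∑ i, ‖∫ t, e i t • Φ t ∂ν‖ ^ 2 ≤ c ^ 2 * ν.real Set.univ := by
  set y : Fin n → F := fun i => ∫ t, e i t • Φ t ∂ν with hy
  have h1 : ∀ t, ‖Φ t - ∑ i, e i t • y i‖ ^ 2 = ‖Φ t‖ ^ 2
      - 2 * ∑ i, inner ℝ (y i) (e i t • Φ t)
      + ∑ i, ∑ j, (e i t * e j t) * inner ℝ (y i) (y j) := by
    intro t
    rw [@norm_sub_sq ℝ, ← real_inner_self_eq_norm_sq (∑ i, e i t • y i), inner_sum, sum_inner]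
    congr 1
    · congr 1
      simp only [RCLike.re_to_real]
      refine congrArg (2 * ·) (Finset.sum_congr rfl fun i _ => ?_)
      rw [inner_smul_right, inner_smul_right, real_inner_comm]
    · refine Finset.sum_congr rfl fun i _ => ?_
      rw [inner_sum]
      refine Finset.sum_congr rfl fun j _ => ?_
      rw [real_inner_smul_left, real_inner_smul_right, mul_assoc]
  have hΦ2 : Integrable (fun t => ‖Φ t‖ ^ 2) ν := by
    refine Integrable.mono' (integrable_const (c ^ 2)) (hΦ.norm.pow 2) ?_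
    filter_upwards [hc] with t ht
    rw [Real.norm_eq_abs, abs_of_nonneg (sq_nonneg _)]
    exact pow_le_pow_left₀ (norm_nonneg _) ht 2
  have h2 : ∀ i, Integrable (fun t => e i t • Φ t) ν := fun i =>
    oe_integrable_smul hΦ hc (e i)
  have h3 : ∀ i, Integrable (fun t => inner ℝ (y i) (e i t • Φ t)) ν := fun i =>
    (h2 i).const_inner (y i)
  have h4 : ∀ i j, Integrable (fun t => e i t * e j t) ν := fun i j =>
    (Lp.memLp (e i)).integrable_mul (Lp.memLp (e j))
  have h5 : ∀ i j, ∫ t, e i t * e j t ∂ν = if i = j then 1 else 0 := by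
    intro i j
    have h6 := orthonormal_iff_ite.1 he i j
    rw [L2.inner_def] at h6
    rw [← h6]
    refine integral_congr_ae (Eventually.of_forall fun t => ?_)
    simp only [RCLike.inner_apply, conj_trivial]
    ring
  have h7 : 0 ≤ ∫ t, ‖Φ t - ∑ i, e i t • y i‖ ^ 2 ∂ν := integral_nonneg fun t => sq_nonneg _
  simp only [h1] at h7
  rw [integral_add, integral_sub hΦ2, integral_const_mul, integral_finsetSum _ fun i _ => h3 i,
    integral_finsetSum] at h7
  · have h8 : ∀ i, ∫ t, inner ℝ (y i) (e i t • Φ t) ∂ν = ‖y i‖ ^ 2 := by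
      intro i
      rw [integral_inner (h2 i), ← real_inner_self_eq_norm_sq]
    have h9 : ∀ i, ∫ t, ∑ j, (e i t * e j t) * inner ℝ (y i) (y j) ∂ν = ‖y i‖ ^ 2 := by
      intro i
      rw [integral_finsetSum _ fun j _ => (h4 i j).mul_const _]
      simp only [integral_mul_const, h5]
      rw [Finset.sum_eq_single i]
      · rw [if_pos rfl, one_mul, real_inner_self_eq_norm_sq]
      · intro j _ hj
        rw [if_neg (Ne.symm hj), zero_mul]
      · intro h; exact absurd (Finset.mem_univ _) h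
    simp only [h8, h9] at h7
    have h10 : ∫ t, ‖Φ t‖ ^ 2 ∂ν ≤ c ^ 2 * ν.real Set.univ := by
      have h11 : ∫ t, ‖Φ t‖ ^ 2 ∂ν ≤ ∫ t, c ^ 2 ∂ν := by
        refine integral_mono_ae hΦ2 (integrable_const _) ?_
        filter_upwards [hc] with t ht
        exact pow_le_pow_left₀ (norm_nonneg _) ht 2
      rw [integral_const, smul_eq_mul, mul_comm] at h11
      exact h11
    linarith
  · intro i _
    exact integrable_finsetSum _ fun j _ => (h4 i j).mul_const _
  · exact (integrable_finsetSum _ fun i _ => h3 i).const_mul 2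
  · exact hΦ2.sub ((integrable_finsetSum _ fun i _ => h3 i).const_mul 2)
  · exact integrable_finsetSum _ fun i _ => integrable_finsetSum _ fun j _ =>
      (h4 i j).mul_const _

/-- the operator `f ↦ ∫ f Φ` -/
noncomputable def oeT {Φ : X → F} (hΦ : AEStronglyMeasurable Φ ν) {c : ℝ} (hc0 : 0 ≤ c)
    (hc : ∀ᵐ t ∂ν, ‖Φ t‖ ≤ c) [CompleteSpace F] : Lp ℝ 2 ν →L[ℝ] F :=
  LinearMap.mkContinuous
    { toFun := fun f => ∫ t, f t • Φ t ∂ν
      map_add' := by
        intro f g
        rw [← integral_add (oe_integrable_smul hΦ hc f) (oe_integrable_smul hΦ hc g)]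
        refine integral_congr_ae ?_
        filter_upwards [Lp.coeFn_add f g] with t ht
        rw [ht, Pi.add_apply, add_smul]
      map_smul' := by
        intro a f
        rw [RingHom.id_apply, ← integral_smul]
        refine integral_congr_ae ?_
        filter_upwards [Lp.coeFn_smul a f] with t ht
        rw [ht, Pi.smul_apply, smul_assoc] }
    (c * Real.sqrt (ν.real Set.univ)) (by
      intro f
      change ‖∫ t, f t • Φ t ∂ν‖ ≤ _
      rcases (norm_nonneg f).eq_or_lt with h0 | h0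
      · have h1 : f = 0 := norm_eq_zero.1 h0.symm
        have h2 : ∫ t, f t • Φ t ∂ν = 0 := by
          refine integral_eq_zero_of_ae ?_
          rw [h1]
          filter_upwards [Lp.coeFn_zero ℝ 2 ν] with t ht
          rw [ht, Pi.zero_apply, zero_smul, Pi.zero_apply]
        rw [h2, norm_zero, ← h0, mul_zero]
      · have h1 := oe_hs hΦ hc0 hc (n := 1) (fun _ => ‖f‖⁻¹ • f) (by
          refine ⟨fun i => ?_, fun i j hij => absurd (Subsingleton.elim i j) hij⟩
          rw [norm_smul, norm_inv, norm_norm, inv_mul_cancel₀ h0.ne'])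
        rw [Fin.sum_univ_one] at h1
        have h2 : ∫ t, (‖f‖⁻¹ • f : Lp ℝ 2 ν) t • Φ t ∂ν = ‖f‖⁻¹ • ∫ t, f t • Φ t ∂ν := by
          rw [← integral_smul]
          refine integral_congr_ae ?_
          filter_upwards [Lp.coeFn_smul ‖f‖⁻¹ f] with t ht
          rw [ht, Pi.smul_apply, smul_assoc]
        rw [h2, norm_smul, norm_inv, norm_norm] at h1
        have h3 : ‖f‖⁻¹ * ‖∫ t, f t • Φ t ∂ν‖ ≤ c * Real.sqrt (ν.real Set.univ) := by
          refine le_of_sq_le_sq ?_ (by positivity)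
          rw [mul_pow c, Real.sq_sqrt measureReal_nonneg]
          exact h1
        rw [inv_mul_le_iff₀ h0] at h3
        linarith)

theorem oeT_apply {Φ : X → F} (hΦ : AEStronglyMeasurable Φ ν) {c : ℝ} (hc0 : 0 ≤ c)
    (hc : ∀ᵐ t ∂ν, ‖Φ t‖ ≤ c) [CompleteSpace F] (f : Lp ℝ 2 ν) :
    oeT hΦ hc0 hc f = ∫ t, f t • Φ t ∂ν := rfl

/-- one smoothing improves the approximation by subspaces -/
theorem oe_step [CompleteSpace F] {Φ : X → F} (hΦ : AEStronglyMeasurable Φ ν) {b : ℝ}
    (hb : ∀ᵐ t ∂ν, ‖Φ t‖ ≤ b) (W : Submodule ℝ F) [FiniteDimensional ℝ W] {c : ℝ} (hc0 : 0 ≤ c)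
    (hc : ∀ᵐ t ∂ν, ∃ w ∈ W, ‖Φ t - w‖ ≤ c) {Y : Type*} (Ψ : Y → Lp ℝ 2 ν) (ρ : ℝ)
    (hρ : ∀ s, ‖Ψ s‖ ≤ ρ) (d : ℕ) :
    ∃ W' : Submodule ℝ F, FiniteDimensional ℝ W' ∧
      Module.finrank ℝ W' ≤ Module.finrank ℝ W + d ∧
      ∀ s, ∃ w ∈ W', ‖∫ t, Ψ s t • Φ t ∂ν - w‖
        ≤ c * Real.sqrt (ν.real Set.univ) / Real.sqrt (d + 1) * ρ := by
  set P := W.starProjection with hP
  have hmin : ∀ (y w : F), w ∈ W → ‖y - P y‖ ≤ ‖y - w‖ := by
    intro y w hw
    rw [Submodule.starProjection_minimal]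
    exact ciInf_le ⟨0, by rintro _ ⟨z, rfl⟩; exact norm_nonneg _⟩ (⟨w, hw⟩ : W)
  have he : AEStronglyMeasurable (fun t => Φ t - P (Φ t)) ν :=
    hΦ.sub (P.continuous.comp_aestronglyMeasurable hΦ)
  have hec : ∀ᵐ t ∂ν, ‖Φ t - P (Φ t)‖ ≤ c := by
    filter_upwards [hc] with t ht
    obtain ⟨w, hw, h1⟩ := ht
    exact (hmin _ _ hw).trans h1
  have hPb : ∀ᵐ t ∂ν, ‖P (Φ t)‖ ≤ ‖P‖ * b := by
    filter_upwards [hb] with t ht
    exact (P.le_opNorm _).trans (mul_le_mul_of_nonneg_left ht (norm_nonneg _))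
  set Te := oeT he hc0 hec with hTe
  obtain ⟨V, hV1, hV2, hV3⟩ := oe_greedy Te (c * Real.sqrt (ν.real Set.univ)) (by positivity)
    (fun n e h => by
      rw [mul_pow, Real.sq_sqrt measureReal_nonneg]
      exact oe_hs he hc0 hec e h) d
  refine ⟨W ⊔ V.map (Te : Lp ℝ 2 ν →ₗ[ℝ] F), inferInstance, ?_, fun s => ?_⟩
  · refine (Submodule.finrank_add_le_finrank_add_finrank _ _).trans (Nat.add_le_add_left ?_ _)
    exact (Submodule.finrank_map_le _ _).trans hV2
  · have h1 : ∫ t, Ψ s t • Φ t ∂ν = P (∫ t, Ψ s t • Φ t ∂ν) + Te (Ψ s) := by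
      have h2 : P (∫ t, Ψ s t • Φ t ∂ν) = ∫ t, Ψ s t • P (Φ t) ∂ν := by
        rw [← P.integral_comp_comm (oe_integrable_smul hΦ hb (Ψ s))]
        refine integral_congr_ae (Eventually.of_forall fun t => ?_)
        simp only [map_smul]
      rw [h2, hTe, oeT_apply, ← integral_add]
      · refine integral_congr_ae (Eventually.of_forall fun t => ?_)
        simp only
        rw [← smul_add, add_sub_cancel]
      · exact oe_integrable_smul (P.continuous.comp_aestronglyMeasurable hΦ) hPb (Ψ s)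
      · exact oe_integrable_smul he hec (Ψ s)
    refine ⟨P (∫ t, Ψ s t • Φ t ∂ν) + Te (V.starProjection (Ψ s)), ?_, ?_⟩
    · exact Submodule.add_mem_sup (Submodule.starProjection_apply_mem _ _)
        (Submodule.mem_map_of_mem (Submodule.starProjection_apply_mem _ _))
    · have h3 : ∫ t, Ψ s t • Φ t ∂ν - (P (∫ t, Ψ s t • Φ t ∂ν) + Te (V.starProjection (Ψ s)))
          = Te (Ψ s - V.starProjection (Ψ s)) := by
        rw [map_sub]
        nth_rewrite 1 [h1]
        abel
      rw [h3]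
      refine (hV3 _ (Submodule.sub_starProjection_mem_orthogonal _)).trans ?_
      refine mul_le_mul_of_nonneg_left ?_ (by positivity)
      have h4 : ‖Ψ s - V.starProjection (Ψ s)‖ ≤ ‖Ψ s - 0‖ := by
        rw [Submodule.starProjection_minimal]
        exact ciInf_le ⟨0, by rintro _ ⟨z, rfl⟩; exact norm_nonneg _⟩ (0 : V)
      rw [sub_zero] at h4
      exact h4.trans (hρ s)

end HS

end Pool.Agent.AbCoc
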