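import Pool.Agent.Lib_MP_418a80_oe.OE1

/-!
# Orbit entropy, part 2: smoothing on a locally compact group, cells
-/

set_option autoImplicit false
set_option linter.unusedVariables false
set_option linter.unusedSectionVars false

open MeasureTheory Topology Filter
open scoped Pointwise

namespace Pool.Agent.AbCoc

section approx
variable {G : Type*} [Group G] [TopologicalSpace G]
  {F : Type*} [NormedAddCommGroup F] [InnerProductSpace ℝ F]

/-- approximable on compact sets by subspaces of dimension `≤ k d` up to `O(d^(-k/2))` -/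
def OEApprox (k : ℕ) (Φ : G → F) : Prop :=
  ∀ C : Set G, IsCompact C → ∃ B : ℝ, 0 ≤ B ∧ ∀ d : ℕ, ∃ W : Submodule ℝ F,
    FiniteDimensional ℝ W ∧ Module.finrank ℝ W ≤ k * d ∧
      ∀ s ∈ C, ∃ w ∈ W, ‖Φ s - w‖ ≤ B / Real.sqrt (d + 1) ^ k

theorem oeApprox_zero {Φ : G → F} (hΦ : Continuous Φ) : OEApprox 0 Φ := by
  intro C hC
  obtain ⟨B, hB⟩ := hC.exists_bound_of_continuousOn hΦ.continuousOn
  refine ⟨max B 0, le_max_right _ _, fun d => ⟨⊥, inferInstance, ?_, fun s hs => ⟨0, ?_, ?_⟩⟩⟩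
  · rw [finrank_bot, Nat.zero_mul]
  · exact Submodule.zero_mem _
  · rw [sub_zero, pow_zero, div_one]
    exact (hB s hs).trans (le_max_left _ _)

variable [IsTopologicalGroup G] [T2Space G] [SecondCountableTopology G]
  [MeasurableSpace G] [BorelSpace G] (μ : Measure G) [IsFiniteMeasureOnCompacts μ]

/-- smoothing: `(s ↦ ∫ ψ(s⁻¹ t) Φ(t) dt)` -/
noncomputable def oeSm (ψ : G → ℝ) (Φ : G → F) (s : G) : F := ∫ t, ψ (s⁻¹ * t) • Φ t ∂μ

variable {μ}

theorem oeSm_eq {ψ : G → ℝ} {Φ : G → F} {K C : Set G} (hK : ∀ t, t ∉ K → ψ t = 0) {s : G}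
    (hs : s ∈ C) : oeSm μ ψ Φ s = ∫ t in C * K, ψ (s⁻¹ * t) • Φ t ∂μ := by
  unfold oeSm
  rw [setIntegral_eq_integral_of_forall_compl_eq_zero]
  intro t ht
  rw [hK, zero_smul]
  intro h
  apply ht
  refine ⟨s, hs, s⁻¹ * t, h, ?_⟩
  simp only
  rw [mul_inv_cancel_left]

theorem oeApprox_succ [CompleteSpace F] {k : ℕ} {ψ : G → ℝ} (hψ : Continuous ψ)
    (hψc : HasCompactSupport ψ) {Φ : G → F} (hΦ : Continuous Φ) (h : OEApprox k Φ) :
    OEApprox (k + 1) (oeSm μ ψ Φ) := by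
  intro C hC
  set K := tsupport ψ with hK
  have hKc : IsCompact K := hψc
  have hCK : IsCompact (C * K) := hC.mul hKc
  obtain ⟨B, hB0, hB⟩ := h (C * K) hCK
  obtain ⟨b, hb⟩ := hCK.exists_bound_of_continuousOn hΦ.continuousOn
  obtain ⟨q, hq⟩ := hψc.exists_bound_of_continuous hψ
  have hq0 : 0 ≤ q := (norm_nonneg _).trans (hq 1)
  set ν := μ.restrict (C * K) with hν
  have : IsFiniteMeasure ν := ⟨by
    rw [hν, Measure.restrict_apply_univ]
    exact hCK.measure_lt_top⟩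
  have hmeas : MeasurableSet (C * K) := hCK.measurableSet
  have hΨ : ∀ s : G, MemLp (fun t => ψ (s⁻¹ * t)) 2 ν := fun s =>
    MemLp.of_bound ((hψ.comp (continuous_const.mul continuous_id)).aestronglyMeasurable) q
      (Eventually.of_forall fun t => hq _)
  set Ψ : G → Lp ℝ 2 ν := fun s => (hΨ s).toLp _ with hΨd
  set ρ : ℝ := (ν.real Set.univ) ^ (ENNReal.toReal 2)⁻¹ * q with hρ
  have hρ1 : ∀ s, ‖Ψ s‖ ≤ ρ := by
    intro s
    have h1 : ∀ᵐ t ∂ν, ‖Ψ s t‖ ≤ q := by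
      filter_upwards [(hΨ s).coeFn_toLp] with t ht
      rw [hΨd]
      simp only
      rw [ht]
      exact hq _
    exact Lp.norm_le_of_ae_bound hq0 h1
  have hρ0 : 0 ≤ ρ := by positivity
  refine ⟨B * Real.sqrt (ν.real Set.univ) * ρ, by positivity, fun d => ?_⟩
  obtain ⟨W, hW1, hW2, hW3⟩ := hB d
  have hae : ∀ {p : G → Prop}, (∀ t ∈ C * K, p t) → ∀ᵐ t ∂ν, p t := by
    intro p hp
    rw [hν]
    filter_upwards [ae_restrict_mem hmeas] with t ht using hp t ht
  obtain ⟨W', h1, h2, h3⟩ := oe_step (ν := ν) (Φ := Φ) hΦ.aestronglyMeasurable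
    (hae hb) W (c := B / Real.sqrt (d + 1) ^ k) (by positivity) (hae hW3) Ψ ρ hρ1 d
  refine ⟨W', h1, ?_, fun s hs => ?_⟩
  · rw [add_mul, one_mul]
    omega
  · obtain ⟨w, hw, h4⟩ := h3 s
    refine ⟨w, hw, ?_⟩
    have h5 : oeSm μ ψ Φ s = ∫ t, Ψ s t • Φ t ∂ν := by
      rw [oeSm_eq (K := K) (C := C) (fun t ht => image_eq_zero_of_notMem_tsupport ht) hs]
      refine integral_congr_ae ?_
      filter_upwards [(hΨ s).coeFn_toLp] with t ht
      rw [hΨd]
      simp only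
      rw [ht]
    rw [h5]
    refine h4.trans (le_of_eq ?_)
    rw [pow_succ]
    field_simp

end approx

end Pool.Agent.AbCoc
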