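import Pool.Agent.Lib_MP_418a80_oe.OE2

/-!
# Orbit entropy, part 3: cells
-/

set_option autoImplicit false
set_option linter.unusedVariables false
set_option linter.unusedSectionVars false

open MeasureTheory Topology Filter
open scoped Pointwise

namespace Pool.Agent.AbCoc

section cells
variable {G : Type*} [TopologicalSpace G] [MeasurableSpace G] [BorelSpace G]
  {F : Type*} [NormedAddCommGroup F] [InnerProductSpace ℝ F]

/-- cells on which a function close to a finite-dimensional subspace has small oscillation -/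
theorem oe_cells {Φ : G → F} (hΦ : Continuous Φ) (C : Set G) (W : Submodule ℝ F)
    [FiniteDimensional ℝ W] {R : ℝ} (hR0 : 0 ≤ R) (hR : ∀ s ∈ C, ‖Φ s‖ ≤ R) {c : ℝ}
    (hc : ∀ s ∈ C, ∃ w ∈ W, ‖Φ s - w‖ ≤ c) {η : ℝ} (hη : 0 < η) :
    ∃ (I : Type) (_ : Fintype I) (κ : G → I), (∀ i, MeasurableSet (κ ⁻¹' {i})) ∧
      (Fintype.card I : ℝ) ≤ (2 * R * (Module.finrank ℝ W + 1) / η + 4)
        ^ (Module.finrank ℝ W) ∧
      ∀ s ∈ C, ∀ t ∈ C, κ s = κ t → ‖Φ s - Φ t‖ ≤ 2 * c + η := by
  set D := Module.finrank ℝ W with hD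
  have b : OrthonormalBasis (Fin D) ℝ W := stdOrthonormalBasis ℝ W
  set h : ℝ := η / (D + 1) with hh
  have hh0 : 0 < h := by positivity
  set M : ℕ := ⌊R / h⌋₊ + 1 with hM
  set N : ℕ := 2 * M + 1 with hN
  have hN0 : 0 < N := by omega
  set a : Fin D → G → ℝ := fun i s => inner ℝ ((b i : W) : F) (Φ s) with ha
  have hac : ∀ i, Continuous (a i) := fun i => continuous_const.inner hΦ
  have hbn : ∀ i, ‖((b i : W) : F)‖ = 1 := fun i => by
    have := b.orthonormal.1 i
    exact this
  have hab : ∀ i, ∀ s ∈ C, |a i s| ≤ R := by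
    intro i s hs
    refine (abs_real_inner_le_norm _ _).trans ?_
    rw [hbn, one_mul]
    exact hR s hs
  set κ : G → (Fin D → Fin N) := fun s i =>
    ⟨(⌊a i s / h⌋ + M).toNat % N, Nat.mod_lt _ hN0⟩ with hκ
  have hfl : ∀ i, ∀ s ∈ C, 0 ≤ ⌊a i s / h⌋ + (M : ℤ) ∧ ⌊a i s / h⌋ + (M : ℤ) < (N : ℤ) := by
    intro i s hs
    have h1 := hab i s hs
    rw [abs_le] at h1
    have h2 : R / h < M := by
      rw [hM]
      push_cast
      exact Nat.lt_floor_add_one _
    have h3 : -(M : ℝ) ≤ a i s / h := by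
      have : -(R / h) ≤ a i s / h := by
        rw [← neg_div]
        exact div_le_div_of_nonneg_right h1.1 hh0.le
      linarith
    have h4 : a i s / h < (M : ℝ) := lt_of_le_of_lt (div_le_div_of_nonneg_right h1.2 hh0.le) h2
    constructor
    · have h5 : (-(M : ℤ)) ≤ ⌊a i s / h⌋ := Int.le_floor.2 (by push_cast; exact h3)
      omega
    · have h5 : ⌊a i s / h⌋ < (M : ℤ) := Int.floor_lt.2 (by push_cast; exact h4)
      rw [hN]
      push_cast
      omega
  refine ⟨Fin D → Fin N, inferInstance, κ, fun i => ?_, ?_, fun s hs t ht hst => ?_⟩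
  · have h1 : κ ⁻¹' {i} = ⋂ j, {s | κ s j = i j} := by
      ext s
      simp only [Set.mem_preimage, Set.mem_singleton_iff, Set.mem_iInter, Set.mem_ofPred_eq]
      exact funext_iff
    rw [h1]
    refine MeasurableSet.iInter fun j => ?_
    have h2 : Measurable fun s => ⌊a j s / h⌋ :=
      Int.measurable_floor.comp ((hac j).measurable.div_const h)
    have h3 : {s | κ s j = i j} = (fun s => ⌊a j s / h⌋) ⁻¹'
        {z : ℤ | (z + M).toNat % N = i j} := by
      ext s
      simp only [Set.mem_preimage, Set.mem_ofPred_eq, hκ]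
      rw [Fin.ext_iff]
    rw [h3]
    exact h2 (MeasurableSet.of_discrete)
  · rw [Fintype.card_fun, Fintype.card_fin, Fintype.card_fin]
    push_cast
    refine pow_le_pow_left₀ (by positivity) ?_ _
    have h1 : (⌊R / h⌋₊ : ℝ) ≤ R / h := Nat.floor_le (by positivity)
    have h2 : R / h = R * (D + 1) / η := by rw [hh]; field_simp
    rw [hN, hM]
    push_cast
    rw [h2] at h1
    have h3 : 2 * R * ((D : ℝ) + 1) / η = 2 * (R * (D + 1) / η) := by ring
    rw [h3, ← h2]
    rw [← h2] at h1
    linarith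
  · have h1 : ∀ i, |a i s - a i t| ≤ h := by
      intro i
      have h2 : ⌊a i s / h⌋ = ⌊a i t / h⌋ := by
        have h3 := congrFun hst i
        simp only [hκ, Fin.mk.injEq] at h3
        have h4 := hfl i s hs
        have h5 := hfl i t ht
        rw [Nat.mod_eq_of_lt (by omega), Nat.mod_eq_of_lt (by omega)] at h3
        omega
      have h3 := Int.abs_sub_lt_one_of_floor_eq_floor h2
      rw [← sub_div, abs_div, abs_of_pos hh0, div_lt_one hh0] at h3
      exact h3.le
    set P := W.starProjection with hP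
    have hmin : ∀ (y w : F), w ∈ W → ‖y - P y‖ ≤ ‖y - w‖ := by
      intro y w hw
      rw [Submodule.starProjection_minimal]
      exact ciInf_le ⟨0, by rintro _ ⟨z, rfl⟩; exact norm_nonneg _⟩ (⟨w, hw⟩ : W)
    have hcc : ∀ s ∈ C, ‖Φ s - P (Φ s)‖ ≤ c := by
      intro s hs
      obtain ⟨w, hw, h2⟩ := hc s hs
      exact (hmin _ _ hw).trans h2
    have h2 : ‖P (Φ s - Φ t)‖ ≤ η := by
      have h3 : P (Φ s - Φ t) = ∑ i, (a i s - a i t) • ((b i : W) : F) := by
        rw [hP, Submodule.starProjection_apply, b.orthogonalProjectionOnto_apply_eq_sum]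
        rw [Submodule.coe_sum]
        refine Finset.sum_congr rfl fun i _ => ?_
        rw [Submodule.coe_smul, inner_sub_right]
      rw [h3]
      refine (norm_sum_le _ _).trans ?_
      have h4 : ∀ i, ‖(a i s - a i t) • ((b i : W) : F)‖ ≤ h := by
        intro i
        rw [norm_smul, hbn, mul_one]
        exact h1 i
      refine (Finset.sum_le_sum fun i _ => h4 i).trans ?_
      rw [Finset.sum_const, Finset.card_univ, Fintype.card_fin, nsmul_eq_mul, hh]
      rw [mul_div_assoc', div_le_iff₀ (by positivity)]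
      nlinarith
    have h3 : Φ s - Φ t = (Φ s - P (Φ s)) + P (Φ s - Φ t) - (Φ t - P (Φ t)) := by
      rw [map_sub]
      abel
    rw [h3]
    refine (norm_sub_le _ _).trans ?_
    have h4 := norm_add_le (Φ s - P (Φ s)) (P (Φ s - Φ t))
    have h5 := hcc s hs
    have h6 := hcc t ht
    linarith

end cells

end Pool.Agent.AbCoc
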