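import Pool.Agent.Lib_MP_418a80_oe.OE3

/-!
# Orbit entropy, part 4: the number of cells
-/

set_option autoImplicit false
set_option linter.unusedVariables false
set_option linter.unusedSectionVars false

open MeasureTheory Topology Filter
open scoped Pointwise

namespace Pool.Agent.AbCoc

/-- the asymptotics used in `OEApprox.cells` -/
theorem oe_asymp (B K δ : ℝ) (hδ : 0 < δ) :
    ∃ n0 : ℕ, ∀ n : ℕ, n0 ≤ n → 1 ≤ n ∧ 4 * B / δ ≤ (n : ℝ) ^ (1 / 8 : ℝ) ∧
      3 * (K + 2 * Real.log n) ≤ δ * (n : ℝ) ^ (1 / 4 : ℝ) := by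
  have h1 : ∀ᶠ n : ℕ in atTop, 4 * B / δ ≤ (n : ℝ) ^ (1 / 8 : ℝ) :=
    ((tendsto_rpow_atTop (by norm_num : (0 : ℝ) < 1 / 8)).comp
      tendsto_natCast_atTop_atTop).eventually_ge_atTop _
  have h2 : ∀ᶠ n : ℕ in atTop, 6 * K / δ ≤ (n : ℝ) ^ (1 / 4 : ℝ) :=
    ((tendsto_rpow_atTop (by norm_num : (0 : ℝ) < 1 / 4)).comp
      tendsto_natCast_atTop_atTop).eventually_ge_atTop _
  have h3 : ∀ᶠ n : ℕ in atTop, ‖Real.log n‖ ≤ (δ / 12) * ‖(n : ℝ) ^ (1 / 4 : ℝ)‖ :=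
    tendsto_natCast_atTop_atTop.eventually
      ((isLittleO_log_rpow_atTop (by norm_num : (0 : ℝ) < 1 / 4)).bound (by positivity))
  obtain ⟨n0, h⟩ := eventually_atTop.1 (((h1.and h2).and h3).and (eventually_ge_atTop 1))
  refine ⟨n0, fun n hn => ?_⟩
  obtain ⟨⟨⟨a1, a2⟩, a3⟩, a4⟩ := h n hn
  refine ⟨a4, a1, ?_⟩
  have a5 : 0 ≤ (n : ℝ) ^ (1 / 4 : ℝ) := by positivity
  rw [Real.norm_eq_abs, Real.norm_eq_abs, abs_of_nonneg a5] at a3
  have a6 := (le_abs_self _).trans a3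
  rw [div_le_iff₀ hδ] at a2
  nlinarith

section cells
variable {G : Type*} [Group G] [TopologicalSpace G] [MeasurableSpace G] [BorelSpace G]
  {F : Type*} [NormedAddCommGroup F] [InnerProductSpace ℝ F]

/-- on every compact set there are `exp(δ n)` measurable cells of oscillation `δ / n`, for every
`δ > 0` and all large `n` -/
def OECells {J : Type*} (Φ : J → G → F) : Prop :=
  ∀ C : Set G, IsCompact C → ∀ δ : ℝ, 0 < δ → ∃ n0 : ℕ, ∀ n : ℕ, n0 ≤ n →
    ∃ (I : Type) (_ : Fintype I) (κ : G → I), (∀ i, MeasurableSet (κ ⁻¹' {i})) ∧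
      Real.log (Fintype.card I) ≤ δ * n ∧
      ∀ j, ∀ s ∈ C, ∀ t ∈ C, κ s = κ t → ‖Φ j s - Φ j t‖ ≤ δ / n

theorem OEApprox.cells {Φ : G → F} (h : OEApprox 3 Φ) (hΦ : Continuous Φ) :
    OECells fun _ : Unit => Φ := by
  intro C hC δ hδ
  obtain ⟨B, hB0, hB⟩ := h C hC
  obtain ⟨R', hR'⟩ := hC.exists_bound_of_continuousOn hΦ.continuousOn
  set R := max R' 0 with hRd
  have hR0 : 0 ≤ R := le_max_right _ _
  have hR : ∀ s ∈ C, ‖Φ s‖ ≤ R := fun s hs => (hR' s hs).trans (le_max_left _ _)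
  obtain ⟨n0, hn0⟩ := oe_asymp B (Real.log (16 * R / δ + 4)) δ hδ
  refine ⟨n0, fun n hn => ?_⟩
  obtain ⟨h1, h2, h3⟩ := hn0 n hn
  have hn1 : (1 : ℝ) ≤ n := by exact_mod_cast h1
  have hn' : (0 : ℝ) < n := by linarith
  set x : ℝ := (n : ℝ) ^ (3 / 4 : ℝ) with hx
  have hx0 : 0 < x := by positivity
  have hxn : x ≤ n := by
    have : (n : ℝ) ^ (3 / 4 : ℝ) ≤ (n : ℝ) ^ (1 : ℝ) :=
      Real.rpow_le_rpow_of_exponent_le hn1 (by norm_num)
    rwa [Real.rpow_one] at this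
  set d : ℕ := ⌊x⌋₊ with hd
  have hd1 : (d : ℝ) ≤ x := Nat.floor_le hx0.le
  have hd2 : x ≤ (d : ℝ) + 1 := (Nat.lt_floor_add_one x).le
  obtain ⟨W, hW1, hW2, hW3⟩ := hB d
  have hD : (Module.finrank ℝ W : ℝ) ≤ 3 * x := by
    have : (Module.finrank ℝ W : ℝ) ≤ 3 * d := by exact_mod_cast hW2
    linarith
  obtain ⟨I, hI, κ, hκ1, hκ2, hκ3⟩ := oe_cells hΦ C W hR0 hR hW3 (η := δ / (2 * n))
    (by positivity)
  refine ⟨I, hI, κ, hκ1, ?_, fun _ s hs t ht hst => (hκ3 s hs t ht hst).trans ?_⟩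
  · rcases Nat.eq_zero_or_pos (Fintype.card I) with h0 | h0
    · rw [h0, Nat.cast_zero, Real.log_zero]
      positivity
    · have hc0 : (0 : ℝ) < Fintype.card I := by exact_mod_cast h0
      refine (Real.log_le_log hc0 hκ2).trans ?_
      rw [Real.log_pow]
      set D := Module.finrank ℝ W with hDd
      have e1 : 2 * R * ((D : ℝ) + 1) / (δ / (2 * n)) + 4 ≤ (16 * R / δ + 4) * (n : ℝ) ^ 2 := by
        have e2 : 2 * R * ((D : ℝ) + 1) / (δ / (2 * n)) = 4 * (R / δ) * (((D : ℝ) + 1) * n) := by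
          field_simp
          ring
        have e3 : 16 * R / δ = 16 * (R / δ) := by ring
        rw [e2, e3]
        have e4 : 0 ≤ R / δ := by positivity
        have e5 : ((D : ℝ) + 1) * n ≤ 4 * (n : ℝ) ^ 2 := by nlinarith
        have e6 := mul_le_mul_of_nonneg_left e5 (by positivity : 0 ≤ 4 * (R / δ))
        nlinarith
      have e2 : Real.log (2 * R * ((D : ℝ) + 1) / (δ / (2 * n)) + 4)
          ≤ Real.log (16 * R / δ + 4) + 2 * Real.log n := by
        refine (Real.log_le_log (by positivity) e1).trans (le_of_eq ?_)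
        rw [Real.log_mul (by positivity) (by positivity), Real.log_pow]
        norm_num
      have e3 : 0 ≤ Real.log (2 * R * ((D : ℝ) + 1) / (δ / (2 * n)) + 4) := by
        refine Real.log_nonneg ?_
        have : 0 ≤ 2 * R * ((D : ℝ) + 1) / (δ / (2 * n)) := by positivity
        linarith
      have e4 : x * (n : ℝ) ^ (1 / 4 : ℝ) = n := by
        rw [hx, ← Real.rpow_add hn']
        norm_num
      calc (D : ℝ) * Real.log (2 * R * ((D : ℝ) + 1) / (δ / (2 * n)) + 4)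
          ≤ (3 * x) * (Real.log (16 * R / δ + 4) + 2 * Real.log n) :=
            mul_le_mul hD e2 e3 (by positivity)
        _ = x * (3 * (Real.log (16 * R / δ + 4) + 2 * Real.log n)) := by ring
        _ ≤ x * (δ * (n : ℝ) ^ (1 / 4 : ℝ)) := mul_le_mul_of_nonneg_left h3 hx0.le
        _ = δ * (x * (n : ℝ) ^ (1 / 4 : ℝ)) := by ring
        _ = δ * n := by rw [e4]
  · have e1 : (n : ℝ) ^ (9 / 8 : ℝ) ≤ Real.sqrt ((d : ℝ) + 1) ^ 3 := by
      have e2 : Real.sqrt x ≤ Real.sqrt ((d : ℝ) + 1) := Real.sqrt_le_sqrt hd2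
      have e3 : (n : ℝ) ^ (9 / 8 : ℝ) = Real.sqrt x ^ 3 := by
        rw [hx, Real.sqrt_eq_rpow, ← Real.rpow_mul hn'.le, ← Real.rpow_natCast,
          ← Real.rpow_mul hn'.le]
        norm_num
      rw [e3]
      exact pow_le_pow_left₀ (Real.sqrt_nonneg _) e2 3
    have e2 : 4 * B * n ≤ δ * Real.sqrt ((d : ℝ) + 1) ^ 3 := by
      have e3 : (n : ℝ) ^ (9 / 8 : ℝ) = n * (n : ℝ) ^ (1 / 8 : ℝ) := by
        rw [show (9 / 8 : ℝ) = 1 + 1 / 8 by norm_num, Real.rpow_add hn', Real.rpow_one]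
      rw [div_le_iff₀ hδ] at h2
      calc 4 * B * n ≤ ((n : ℝ) ^ (1 / 8 : ℝ) * δ) * n := mul_le_mul_of_nonneg_right h2 hn'.le
        _ = δ * (n : ℝ) ^ (9 / 8 : ℝ) := by rw [e3]; ring
        _ ≤ _ := mul_le_mul_of_nonneg_left e1 hδ.le
    have e3 : (0 : ℝ) < Real.sqrt ((d : ℝ) + 1) ^ 3 := by positivity
    have e4 : 2 * (B / Real.sqrt ((d : ℝ) + 1) ^ 3) ≤ δ / (2 * n) := by
      rw [mul_div_assoc', div_le_div_iff₀ e3 (by positivity)]
      nlinarith
    have e5 : δ / n = δ / (2 * n) + δ / (2 * n) := by field_simp; ring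
    rw [e5]
    linarith

theorem OECells.of_forall {J : Type*} [Fintype J] {Φ : J → G → F}
    (h : ∀ j, OECells fun _ : Unit => Φ j) : OECells Φ := by
  intro C hC δ hδ
  set m : ℕ := Fintype.card J with hm
  set δ' : ℝ := δ / (m + 1) with hδ'
  have hδ0 : 0 < δ' := by positivity
  have hδ1 : δ' ≤ δ := by
    rw [hδ', div_le_iff₀ (by positivity)]
    nlinarith [(Nat.cast_nonneg m : (0 : ℝ) ≤ m)]
  choose n0 hn0 using fun j => h j C hC δ' hδ0
  refine ⟨∑ j, n0 j, fun n hn => ?_⟩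
  have hj : ∀ j, n0 j ≤ n := fun j =>
    (Finset.single_le_sum (fun i _ => Nat.zero_le (n0 i)) (Finset.mem_univ j)).trans hn
  choose I hI κ hκ1 hκ2 hκ3 using fun j => hn0 j n (hj j)
  classical
  by_cases hJ : Nonempty (J ≃ Fin m)
  swap
  · exact absurd ⟨Fintype.equivFin J⟩ hJ
  obtain ⟨e⟩ := hJ
  let _ : ∀ i : Fin m, Fintype (I (e.symm i)) := fun i => hI (e.symm i)
  refine ⟨∀ i : Fin m, I (e.symm i), inferInstance, fun s i => κ (e.symm i) s, fun i => ?_, ?_,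
    fun j s hs t ht hst => ?_⟩
  · have h1 : (fun s (k : Fin m) => κ (e.symm k) s) ⁻¹' {i} = ⋂ k, κ (e.symm k) ⁻¹' {i k} := by
      ext s
      simp only [Set.mem_preimage, Set.mem_singleton_iff, Set.mem_iInter]
      exact funext_iff
    rw [h1]
    exact MeasurableSet.iInter fun k => hκ1 _ _
  · rw [Fintype.card_pi]
    push_cast
    have hpos : ∀ i : Fin m, (Fintype.card (I (e.symm i)) : ℝ) ≠ 0 := by
      intro i
      have : Nonempty (I (e.symm i)) := ⟨κ (e.symm i) 1⟩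
      exact_mod_cast Fintype.card_ne_zero
    rw [Real.log_prod fun i _ => hpos i]
    refine (Finset.sum_le_sum fun i _ => hκ2 (e.symm i)).trans ?_
    rw [Finset.sum_const, Finset.card_univ, Fintype.card_fin, nsmul_eq_mul, ← mul_assoc]
    refine mul_le_mul_of_nonneg_right ?_ (Nat.cast_nonneg _)
    rw [hδ', mul_div_assoc', div_le_iff₀ (by positivity)]
    nlinarith
  · obtain ⟨k, rfl⟩ := e.symm.surjective j
    refine (hκ3 (e.symm k) () s hs t ht (congrFun hst k)).trans ?_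
    exact div_le_div_of_nonneg_right hδ1 (Nat.cast_nonneg _)

end cells

end Pool.Agent.AbCoc
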