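import Pool.Agent.Lib_MP_418a80_oe.OE5

/-!
# Orbit entropy, part 6: smooth unitaries (Cayley transforms)
-/

set_option autoImplicit false
set_option linter.unusedVariables false
set_option linter.unusedSectionVars false

open MeasureTheory Topology Filter
open scoped Pointwise

namespace Pool.Agent.AbCoc

universe u v w

section cayley
variable {A : Type u} [CStarAlgebra A]

/-- `r` is the inverse of `h + i` -/
structure IsRes (h r : A) : Prop where
  left : r * (h + Complex.I • (1 : A)) = 1
  right : (h + Complex.I • (1 : A)) * r = 1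

theorem exists_isRes {h : A} (hh : IsSelfAdjoint h) : ∃ r : A, IsRes h r := by
  have h1 : (-Complex.I) ∉ spectrum ℂ h := by
    intro h2
    have h3 := hh.im_eq_zero_of_mem_spectrum h2
    simp at h3
  rw [spectrum.notMem_iff] at h1
  have h2 : IsUnit (h + Complex.I • (1 : A)) := by
    have h3 : algebraMap ℂ A (-Complex.I) - h = -(h + Complex.I • (1 : A)) := by
      rw [Algebra.algebraMap_eq_smul_one, neg_smul]
      abel
    rw [h3, IsUnit.neg_iff] at h1
    exact h1
  obtain ⟨w, hw⟩ := h2
  refine ⟨↑w⁻¹, ?_, ?_⟩
  · rw [← hw, Units.inv_mul]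
  · rw [← hw, Units.mul_inv]

theorem IsRes.unique {h r r' : A} (a : IsRes h r) (b : IsRes h r') : r = r' := by
  calc r = r * ((h + Complex.I • (1 : A)) * r') := by rw [b.right, mul_one]
    _ = r' := by rw [← mul_assoc, a.left, one_mul]

theorem IsRes.map {h r : A} (a : IsRes h r) (f : A →⋆ₐ[ℂ] A) : IsRes (f h) (f r) := by
  constructor
  · have := congrArg f a.left
    rwa [map_mul, map_add, map_smul, map_one] at this
  · have := congrArg f a.right
    rwa [map_mul, map_add, map_smul, map_one] at this

/-- the Cayley transform -/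
noncomputable def cay (r : A) : A := 1 - (2 * Complex.I) • r

theorem cay_map (f : A →⋆ₐ[ℂ] A) (r : A) : f (cay r) = cay (f r) := by
  unfold cay
  rw [map_sub, map_one, map_smul]

theorem IsRes.star_left {h r : A} (hh : IsSelfAdjoint h) (a : IsRes h r) :
    (h - Complex.I • (1 : A)) * star r = 1 := by
  have h1 := congrArg star a.left
  rw [star_mul, star_add, hh.star_eq, star_smul, star_one] at h1
  simp only [Complex.star_def, Complex.conj_I, neg_smul] at h1
  rwa [← sub_eq_add_neg] at h1

theorem IsRes.star_right {h r : A} (hh : IsSelfAdjoint h) (a : IsRes h r) :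
    star r * (h - Complex.I • (1 : A)) = 1 := by
  have h1 := congrArg star a.right
  rw [star_mul, star_add, hh.star_eq, star_smul, star_one] at h1
  simp only [Complex.star_def, Complex.conj_I, neg_smul] at h1
  rwa [← sub_eq_add_neg] at h1

theorem IsRes.sub_star {h r : A} (hh : IsSelfAdjoint h) (a : IsRes h r) :
    r - star r = -((2 * Complex.I) • (r * star r)) := by
  have h1 : r - star r = r * ((h - Complex.I • (1 : A)) - (h + Complex.I • (1 : A))) * star r := by
    rw [mul_sub, sub_mul, mul_assoc r, a.star_left hh, mul_one, a.left, one_mul]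
  rw [h1]
  have h2 : (h - Complex.I • (1 : A)) - (h + Complex.I • (1 : A))
      = -((2 * Complex.I) • (1 : A)) := by
    rw [mul_smul, two_smul]
    abel
  rw [h2, mul_neg, neg_mul, mul_smul_comm, mul_one, smul_mul_assoc]

theorem IsRes.sub_star' {h r : A} (hh : IsSelfAdjoint h) (a : IsRes h r) :
    r - star r = -((2 * Complex.I) • (star r * r)) := by
  have h1 : r - star r = star r * ((h - Complex.I • (1 : A)) - (h + Complex.I • (1 : A))) * r := by
    rw [mul_sub, sub_mul, a.star_right hh, one_mul, mul_assoc (star r), a.right, mul_one]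
  rw [h1]
  have h2 : (h - Complex.I • (1 : A)) - (h + Complex.I • (1 : A))
      = -((2 * Complex.I) • (1 : A)) := by
    rw [mul_smul, two_smul]
    abel
  rw [h2, mul_neg, neg_mul, mul_smul_comm, mul_one, smul_mul_assoc]

theorem star_cay (r : A) : star (cay r) = 1 + (2 * Complex.I) • star r := by
  unfold cay
  rw [star_sub, star_one, star_smul]
  have : star (2 * Complex.I) = -(2 * Complex.I) := by
    simp
  rw [this, neg_smul, sub_neg_eq_add]

theorem IsRes.cay_mul_star {h r : A} (hh : IsSelfAdjoint h) (a : IsRes h r) :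
    cay r * star (cay r) = 1 := by
  have h1 : cay r * star (cay r) = 1 - (2 * Complex.I) • (r - star r)
      - ((2 * Complex.I) * (2 * Complex.I)) • (r * star r) := by
    rw [star_cay]
    unfold cay
    simp only [sub_mul, mul_add, one_mul, mul_one, smul_mul_assoc, mul_smul_comm, smul_smul,
      smul_sub]
    abel
  rw [h1, a.sub_star hh, smul_neg, smul_smul]
  abel

theorem IsRes.star_cay_mul {h r : A} (hh : IsSelfAdjoint h) (a : IsRes h r) :
    star (cay r) * cay r = 1 := by
  have h1 : star (cay r) * cay r = 1 - (2 * Complex.I) • (r - star r)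
      - ((2 * Complex.I) * (2 * Complex.I)) • (star r * r) := by
    rw [star_cay]
    unfold cay
    simp only [add_mul, mul_sub, one_mul, mul_one, smul_mul_assoc, mul_smul_comm, smul_smul,
      smul_sub, smul_add]
    abel
  rw [h1, a.sub_star' hh, smul_neg, smul_smul]
  abel

theorem IsRes.norm_le {h r : A} (hh : IsSelfAdjoint h) (a : IsRes h r) : ‖r‖ ≤ 1 := by
  have h1 : ‖cay r‖ ≤ 1 := by
    have h2 : ‖cay r‖ * ‖cay r‖ = ‖(1 : A)‖ := by
      rw [← CStarRing.norm_star_mul_self, a.star_cay_mul hh]
    have h3 : ‖(1 : A)‖ ≤ 1 := by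
      rcases subsingleton_or_nontrivial A with h | h
      · rw [Subsingleton.elim (1 : A) 0, norm_zero]; norm_num
      · rw [CStarRing.norm_one]
    nlinarith [norm_nonneg (cay r)]
  have h2 : (2 * Complex.I) • r = 1 - cay r := by
    unfold cay
    abel
  have h3 : ‖(2 * Complex.I) • r‖ = 2 * ‖r‖ := by
    rw [norm_smul, norm_mul, Complex.norm_I, mul_one, Complex.norm_ofNat]
  have h4 : ‖(1 : A)‖ ≤ 1 := by
    rcases subsingleton_or_nontrivial A with h | h
    · rw [Subsingleton.elim (1 : A) 0, norm_zero]; norm_num
    · rw [CStarRing.norm_one]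
  have h5 := norm_sub_le (1 : A) (cay r)
  rw [← h2, h3] at h5
  linarith

theorem IsRes.sub {a b r s : A} (h1 : IsRes a r) (h2 : IsRes b s) : r - s = r * (b - a) * s := by
  have h3 : b - a = (b + Complex.I • (1 : A)) - (a + Complex.I • (1 : A)) := by abel
  rw [h3, mul_sub, sub_mul, mul_assoc r, h2.right, mul_one, h1.left, one_mul]

/-- intertwining of Cayley transforms and of the operators themselves -/
theorem IsRes.inter {a b r s : A} (h1 : IsRes a r) (h2 : IsRes b s) (x : A) :
    a * x - x * b = (2 * Complex.I)⁻¹ •
      ((a + Complex.I • (1 : A)) * (cay r * x - x * cay s) * (b + Complex.I • (1 : A))) := by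
  have h3 : cay r * x - x * cay s = (2 * Complex.I) • (x * s - r * x) := by
    unfold cay
    simp only [sub_mul, mul_sub, one_mul, mul_one, smul_mul_assoc, mul_smul_comm, smul_sub]
    abel
  have h4 : (a + Complex.I • (1 : A)) * (x * s - r * x) * (b + Complex.I • (1 : A))
      = a * x - x * b := by
    have h5 : (a + Complex.I • (1 : A)) * (x * s - r * x) * (b + Complex.I • (1 : A))
        = (a + Complex.I • (1 : A)) * x * (s * (b + Complex.I • (1 : A)))
          - ((a + Complex.I • (1 : A)) * r) * x * (b + Complex.I • (1 : A)) := by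
      generalize a + Complex.I • (1 : A) = p
      generalize b + Complex.I • (1 : A) = q
      noncomm_ring
    rw [h5, h2.left, h1.right, mul_one, one_mul, add_mul, mul_add, smul_mul_assoc, one_mul,
      mul_smul_comm, mul_one]
    abel
  have hI : (2 * Complex.I) ≠ 0 := by simp
  rw [h3, mul_smul_comm, smul_mul_assoc, smul_smul, inv_mul_cancel₀ hI, one_smul, h4]

end cayley

end Pool.Agent.AbCoc
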